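import Mathlib
import Pool.Agent.H39.PM3

set_option autoImplicit false

open Pool.Agent.H39.PM

theorem Pool.Agent.Results.MP_616ade_gt.FatCarpet.result :
    ∃ (X : Type) (_ : MetricSpace X), CompactSpace X ∧ IsLengthSpace X ∧
      CovDimLE X 1 ∧ ¬ CovDimLE X 0 ∧ ¬ IsProMink X 1 := by
  obtain ⟨H⟩ := exists_holes
  exact ⟨Sp H, inferInstance, inferInstance, H.length, H.dim1, H.not_dim0, H.not_pro⟩
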